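import Pool.Agent.R698.TC.Main
import Pool.Agent.Helper903.ES.Main

/-!
# Tree versus odd cycle Ramsey numbers: `R(T_n, C_m) = 2n - 1` for `n ≥ m - 1`

For every odd `m ≥ 3`, every `n ≥ m - 1` and every tree `T` with `n` vertices the Ramsey number
`R(T, C_m)` is `2n - 1`.  Moreover every red-blue colouring of the complete graph on `2n - 1`
vertices without a red copy of `T` contains blue cycles of all lengths `3, …, n + 1`.

Proof.  The red graph has at most `(n - 2)(2n - 1) / 2` edges by the theorem of Erdős and Sós
(`Helper903/ES`), hence the blue graph has at least `n (2n - 1) / 2` edges.  This is more than a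
quarter of the square of the number of vertices, so by a theorem of Bondy the blue graph contains
cycles of all lengths up to its circumference, and by the theorem of Erdős and Gallai the
circumference is at least `n + 1`.
-/

set_option autoImplicit false

namespace Pool.Agent.Results.MP_0e31aa_co.AtLeastMMinusOne

open SimpleGraph

/-- `K_N → (G, H)`: for every colouring of the edges of the complete graph on `N` vertices with red
and blue (the red edges form the graph `R`, the blue edges its complement `Rᶜ`) there is a red copy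
of `G` or a blue copy of `H`. -/
def Arrows {A B : Type} (G : SimpleGraph A) (H : SimpleGraph B) (N : ℕ) : Prop :=
  ∀ R : SimpleGraph (Fin N), G.IsContained R ∨ H.IsContained Rᶜ

/-- `r` is the Ramsey number of `G` and `H`: the least positive `N` with `K_N → (G, H)`. -/
def IsRamseyNumber {A B : Type} (G : SimpleGraph A) (H : SimpleGraph B) (r : ℕ) : Prop :=
  IsLeast {N : ℕ | 1 ≤ N ∧ Arrows G H N} r

theorem contained_of_hasC {V : Type} {G : SimpleGraph V} {m : ℕ}
    (h : R698.TC.HasC G Set.univ m) : (cycleGraph m).IsContained G := by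
  obtain ⟨x, hx, -⟩ := h
  have h3 := hx.three
  have hP := hx.toPer
  have key : ∀ u v : Fin m, (v - u).val = 1 → G.Adj (x u) (x v) := by
    intro u v huv
    have h1 : v.val = (u.val + 1) % m := by
      have : NeZero m := ⟨by omega⟩
      have h2 : v = u + (v - u) := by abel
      have h4 := congrArg Fin.val h2
      rw [Fin.val_add, huv] at h4
      exact h4
    have h5 := hP.adj u.val
    simp only [Nat.mod_eq_of_lt u.isLt] at h5
    rw [h1]
    exact h5
  refine ⟨⟨⟨fun i => x i.val, ?_⟩, ?_⟩⟩
  · intro u v huv
    rcases cycleGraph_adj'.1 huv with h | h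
    · exact (key v u h).symm
    · exact key u v h
  · intro u v huv
    exact Fin.ext (hx.inj _ u.isLt _ v.isLt huv)

theorem arith (n X Y : ℕ) (hn : 2 ≤ n) (hE : Y ≤ (n - 1 - 1) * (2 * n - 1))
    (hsum : X + Y = (2 * n - 1) * (2 * n - 2)) : n * (2 * n - 1) ≤ X := by
  obtain ⟨k, rfl⟩ : ∃ k, n = k + 2 := ⟨n - 2, by omega⟩
  have e1 : k + 2 - 1 - 1 = k := by omega
  have e2 : 2 * (k + 2) - 1 = 2 * k + 3 := by omega
  have e3 : 2 * (k + 2) - 2 = 2 * k + 2 := by omega
  rw [e1, e2] at hE
  rw [e2, e3] at hsum
  rw [e2]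
  have : (2 * k + 3) * (2 * k + 2) = (k + 2) * (2 * k + 3) + k * (2 * k + 3) := by ring
  omega

/-- blue cycles of all lengths up to `n + 1` -/
theorem upper (m n : ℕ) (h3 : 3 ≤ m) (hn : m ≤ n + 1) (T : SimpleGraph (Fin n)) (hT : T.IsTree) :
    Arrows T (cycleGraph m) (2 * n - 1) := by
  classical
  intro R
  by_contra hcon
  rw [not_or] at hcon
  obtain ⟨h1, h2⟩ := hcon
  have hE : 2 * R.edgeFinset.card ≤ (n - 1 - 1) * Fintype.card (Fin (2 * n - 1)) := by
    by_contra hlt
    obtain ⟨f, hf⟩ := ES903.erdos_sos R (n - 1) (not_le.1 hlt) T hT (by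
      rw [Fintype.card_fin]; omega)
    exact h1 ⟨⟨⟨f, fun {a b} hab => hf a b hab⟩, f.injective⟩⟩
  rw [Fintype.card_fin] at hE
  apply h2
  apply contained_of_hasC
  refine R698.TC.cycles n (by rw [Fintype.card_fin]; omega) ?_ m h3 hn
  have hs := R.sum_degrees_eq_twice_card_edges
  have hs' := Rᶜ.sum_degrees_eq_twice_card_edges
  have hd : ∀ v, Rᶜ.degree v + R.degree v = 2 * n - 2 := by
    intro v
    have h4 := R.degree_compl v
    have h5 := R.degree_lt_card_verts v
    rw [Fintype.card_fin] at h4 h5
    omega
  have hsum : ∑ v, (Rᶜ.degree v + R.degree v) = (2 * n - 1) * (2 * n - 2) := by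
    rw [Finset.sum_congr rfl (fun v _ => hd v), Finset.sum_const, Finset.card_univ,
      Fintype.card_fin, smul_eq_mul]
  rw [Finset.sum_add_distrib, hs, hs'] at hsum
  rw [Fintype.card_fin]
  exact arith n _ _ (by omega) hE hsum

/-- two red cliques and blue edges between them -/
theorem lower (m n N : ℕ) (hm : Odd m) (h3 : 3 ≤ m) (hN : N + 2 ≤ 2 * n) (T : SimpleGraph (Fin n))
    (hT : T.IsTree) : ¬ Arrows T (cycleGraph m) N := by
  classical
  intro h
  set R : SimpleGraph (Fin N) :=
    { Adj := fun i j => i ≠ j ∧ (i.val < n - 1 ↔ j.val < n - 1)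
      symm := ⟨fun i j hij => ⟨hij.1.symm, hij.2.symm⟩⟩
      loopless := ⟨fun i hi => hi.1 rfl⟩ } with hR
  rcases h R with ⟨⟨f⟩⟩ | ⟨⟨f⟩⟩
  · -- the tree lies in one of the cliques
    have hne : Nonempty (Fin n) := hT.connected.nonempty
    obtain ⟨a⟩ := hne
    have hconst : ∀ b, ((f b).val < n - 1 ↔ (f a).val < n - 1) := by
      intro b
      obtain ⟨w⟩ := hT.connected.preconnected b a
      induction w with
      | nil => rfl
      | cons hadj _ ih => exact (f.toHom.map_rel hadj).2.trans ih
    have hinj := f.injective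
    by_cases ha : (f a).val < n - 1
    · have : Fintype.card (Fin n) ≤ Fintype.card (Fin (n - 1)) :=
        Fintype.card_le_of_injective (fun b => (⟨(f b).val, (hconst b).2 ha⟩ : Fin (n - 1)))
          (fun b c hbc => hinj (Fin.ext (by simpa using congrArg Fin.val hbc)))
      rw [Fintype.card_fin, Fintype.card_fin] at this
      have := (f a).isLt
      omega
    · have hb : ∀ b, n - 1 ≤ (f b).val := fun b => by
        have := (hconst b).not.2 ha
        omega
      have h1 : ∀ b, (f b).val - (n - 1) < n - 1 := fun b => by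
        have h2 := hb b
        have h4 := (f b).isLt
        omega
      have : Fintype.card (Fin n) ≤ Fintype.card (Fin (n - 1)) :=
        Fintype.card_le_of_injective (fun b => (⟨(f b).val - (n - 1), h1 b⟩ : Fin (n - 1)))
          (fun b c hbc => hinj (Fin.ext (by
            have h2 : (f b).val - (n - 1) = (f c).val - (n - 1) := congrArg Fin.val hbc
            have h4 := hb b
            have h5 := hb c
            change (f b).val = (f c).val
            omega)))
      rw [Fintype.card_fin, Fintype.card_fin] at this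
      have := h1 a
      omega
  · -- no odd cycle in a bipartite graph
    have hcol : (cycleGraph m).Colorable 2 := by
      refine ⟨SimpleGraph.Coloring.mk (fun v => if (f v).val < n - 1 then (0 : Fin 2) else 1) ?_⟩
      intro u v huv
      have h1 := f.toHom.map_rel huv
      have h2 : (f u) ≠ (f v) ∧ ¬ R.Adj (f u) (f v) := by
        exact ⟨h1.ne, (SimpleGraph.compl_adj _ _ _).1 h1 |>.2⟩
      have h4 : ¬ ((f u).val < n - 1 ↔ (f v).val < n - 1) := fun hh => h2.2 ⟨h2.1, hh⟩
      by_cases hu : (f u).val < n - 1
      · have hv : ¬ (f v).val < n - 1 := fun hv => h4 ⟨fun _ => hv, fun _ => hu⟩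
        simp [hu, hv]
      · have hv : (f v).val < n - 1 := by
          by_contra hv
          exact h4 ⟨fun h => absurd h hu, fun h => absurd h hv⟩
        simp [hu, hv]
    have h5 := chromaticNumber_cycleGraph_of_odd m (by omega) hm
    have h6 := hcol.chromaticNumber_le
    rw [h5] at h6
    exact absurd h6 (by decide)

/-- Let `m ≥ 3` be odd, `n ≥ m - 1` and let `T` be a tree with `n` vertices. Then
`R(T, C_m) = 2n - 1`. Moreover (even lengths included) every red-blue colouring of the complete
graph on `2n - 1` vertices without a red copy of `T` contains a blue copy of `C_l` for every `l` with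
`3 ≤ l ≤ n + 1`. -/
theorem result (n : ℕ) (T : SimpleGraph (Fin n)) (hT : T.IsTree) :
    (∀ m : ℕ, Odd m → 3 ≤ m → m ≤ n + 1 → IsRamseyNumber T (cycleGraph m) (2 * n - 1)) ∧
    (∀ l : ℕ, 3 ≤ l → l ≤ n + 1 → Arrows T (cycleGraph l) (2 * n - 1)) := by
  refine ⟨fun m hm h3 hn => ⟨⟨by omega, upper m n h3 hn T hT⟩, ?_⟩,
    fun l h3 hn => upper l n h3 hn T hT⟩
  rintro N ⟨_, hN⟩
  by_contra hcon
  exact lower m n N hm h3 (by omega) T hT hN

end Pool.Agent.Results.MP_0e31aa_co.AtLeastMMinusOne
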